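import Pool.Agent.TH145.GE.CurveMain
import Pool.Agent.TH145.GC.Main

/-!
MP_c7af3c_ag, Q1: generic complete intersections in an arbitrary projective variety have both
properties of the question.

Let `K` be an algebraically closed field of characteristic `0`, and let `k` be a field contained in
`K`, with algebraic closure `k'` in `K`. Let `V` be a closed subset of projective space, defined
over `k'`, of dimension at most `m`, and let `F_a` be finitely many forms of degrees `d_a`, generic
over `k`: the ratios of the coefficients of each form `F_a` to one of them are, for all forms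
together, algebraically independent over `k`. Suppose that the sum of the numbers `d_a + 1` is at
least `2 m + 2`, and let `X` be the intersection of `V` with the hypersurfaces `F_a = 0`. Then:

* `X` has only finitely many points over each field generated by finitely many elements of `K`, and
  even over each field generated over `k'` by finitely many elements of `K` (so `X` and its closed
  subvarieties are arithmetically hyperbolic);
* for each non-constant morphism `f` from a smooth projective curve of genus `g` over `K` to `X`,
  `(∑ (d_a + 1) - 2 m) deg f ≤ 2 g - 2` (so `X` and its closed subvarieties are algebraically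
  hyperbolic, hence groupless).

The curve is given by its function field `L`, of transcendence degree one over `K`, and the morphism
by its homogeneous coordinates `x`. For a point `P` of the curve (a normalised discrete valuation of
`L`, trivial on `K`), `pord P x` is the minimum of the orders at `P` of the nonzero coordinates;
`pht K x` is minus the sum of these numbers, the degree of `f`. The number `canDeg K L` is `2 g - 2`:
it is minus the sum over the points `P` of the orders of `δ (t_P)`, where `t_P` is a uniformizer at
`P`, for any nonzero derivation `δ` of `L` over `K`.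
-/

set_option autoImplicit false

namespace Pool.Agent.Results.MP_c7af3c_ag.GenericIntersections

open MvPolynomial FF Pool.Agent.W603.LV Pool.Agent.W603.PV Pool.Agent.TH145.MG
  LinearAlgebra.Projectivization

theorem result {k K : Type} [Field k] [Field K] [IsAlgClosed K] [CharZero K] [Algebra k K]
    {n m : ℕ}
    -- a closed subset of projective space, of dimension at most `m`
    (V : Set (MvPolynomial (Fin (n + 1)) (algebraicClosure k K)))
    (hVh : ∀ f ∈ V, ∃ e, f.IsHomogeneous e) (hV : DimLE (algebraicClosure k K) V m)
    -- forms of degrees `d a`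
    {A : Type} [Fintype A] (d : A → ℕ) (hd : 2 * m + 2 ≤ ∑ a, (d a + 1))
    (F : A → MvPolynomial (Fin (n + 1)) K) (hF : ∀ a, (F a).IsHomogeneous (d a))
    -- the ratios of the coefficients of the forms are algebraically independent over `k`
    (I0 : A → Fin (n + 1) →₀ ℕ) (h0 : ∀ a, (F a).coeff (I0 a) ≠ 0)
    (hgen : AlgebraicIndependent k
      fun p : (a : A) × {I : Fin (n + 1) →₀ ℕ // I.degree = d a ∧ I ≠ I0 a} =>
        (F p.1).coeff p.2.1 / (F p.1).coeff (I0 p.1)) :
    -- the points over the fields generated by finite sets over the algebraic closure of `k`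
    (∀ T : Finset K, {p : ℙ K (Fin (n + 1) → K) | ∃ (x : Fin (n + 1) → K) (hx : x ≠ 0),
      p = Projectivization.mk K x hx ∧ (∀ f ∈ V, aeval x f = 0) ∧ (∀ a, eval x (F a) = 0) ∧
      ∀ i, x i ∈ IntermediateField.adjoin (algebraicClosure k K) (T : Set K)}.Finite) ∧
    -- the curves
    ∀ (L : Type) [Field L] [Algebra K L] [IsFF K L] (x : Fin (n + 1) → L),
      (∃ i j, x j ≠ 0 ∧ x i / x j ∉ Set.range (algebraMap K L)) →
      (∀ f ∈ V, aeval x (map (algebraMap (algebraicClosure k K) K) f) = 0) →
      (∀ a, aeval x (F a) = 0) →
      (∀ δ : Derivation K L L, δ ≠ 0 → canDeg K L = - ∑ᶠ P : Place K L, P.ord (δ P.surj.choose)) ∧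
      (((∑ a, (d a + 1) : ℕ) : ℤ) - 2 * m) * pht K x ≤ canDeg K L := by
  classical
  constructor
  · intro T
    obtain ⟨G, hG⟩ : ∃ G : V ⊕ A → MvPolynomial (Fin (n + 1)) K, G = Sum.elim
      (fun f => map (algebraMap (algebraicClosure k K) K) f.1) F := ⟨_, rfl⟩
    refine (Pool.Agent.TH145.GC.fin_rational hd V hVh hV F hF I0 h0 hgen G
      (fun f hf => ⟨Sum.inl ⟨f, hf⟩, by rw [hG]; rfl⟩)
      (fun a => ⟨Sum.inr a, by rw [hG]; rfl⟩) T).subset ?_
    rintro p ⟨x, hx, hp, hxV, hxF, hxT⟩
    refine ⟨x, ⟨hx, fun i => ?_⟩, hxT, hx, hp⟩
    rw [hG]
    rcases i with ⟨f, hf⟩ | a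
    · change aeval x (map (algebraMap (algebraicClosure k K) K) f) = 0
      rw [aeval_map_algebraMap]
      exact hxV f hf
    · change aeval x (F a) = 0
      rw [aeval_eq_eval]
      exact hxF a
  · intro L _ _ _ x hx hxV hxF
    refine ⟨fun δ hδ => canDeg_eq hδ, ?_⟩
    have h1 := Pool.Agent.TH145.GE.curve_generic V hVh hV F hF I0 h0 hgen.algebraicClosure
      Finset.univ x hx hxV (fun a _ => hxF a) (fun a ha => absurd (Finset.mem_univ a) ha)
    have h2 : {P : Place K L | ∃ a, a ∉ (Finset.univ : Finset A) ∧
        d a * pord P x < P.ord (aeval x (F a))} = ∅ := by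
      ext P
      simp
    rw [h2, Set.ncard_empty, Nat.cast_zero, add_zero] at h1
    have h3 : (((∑ a, (d a + 1) : ℕ) : ℤ) - 2 * m) =
        ((∑ a, d a : ℕ) : ℤ) + (Finset.univ : Finset A).card - 2 * m := by
      rw [Finset.sum_add_distrib, Finset.sum_const, smul_eq_mul, mul_one]
      push_cast
      ring
    rw [h3]
    exact h1

end Pool.Agent.Results.MP_c7af3c_ag.GenericIntersections
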