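import Mathlib
import Pool.Agent.TH717.GO.Equiv

set_option autoImplicit false

/-!
# Projective varieties without rational curves and orbits of linear groups

Let `k` be an algebraically closed field of characteristic zero and let `X` be the closed subset of
projective `n`-space over `k` given by the forms in `FF`.  The following are equivalent.

(1) `X` contains no rational curve: every polynomial curve on `X` is constant.

(2) For every subring `A` of `k` which has homomorphisms to finite fields `F₁`, `F₂` of different
characteristics (for instance every finitely generated subring), for every `r`, every group `H`,
every homomorphism `ρ : H → GL_r(A)`, every matrix `M` with `n + 1` rows and `r` columns over `k` and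
every vector `v` in `k ^ r`: if all the points with homogeneous coordinates `M ρ(h) v`, `h ∈ H`, lie
on `X`, then the number of these points is at most `|GL_r(F₁)| |GL_r(F₂)|`.

(3) For every finitely generated group `H` and every representation `ρ : H → GL_r(k)`: if all the
points with homogeneous coordinates `M ρ(h) v` lie on `X`, then there are finitely many.

So groupless varieties and arithmetically hyperbolic varieties (both contain no rational curve) have
the same finiteness property (3) for orbits of linear groups, which is characterised by (1), and the
number of points in (2) does not depend on the variety, on the group or on the orbit.

Method: the eigenvalues of a matrix which is congruent to one in both residue fields generate a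
torsion-free group, so the powers of the matrix give vectors of exponential polynomials in
algebraically independent variables, and if such a vector lies on `X` then each of its points lies
on rational curves in `X`; hence the matrix fixes the point if there are no rational curves.
-/

namespace Pool.Agent.Results.MP_c7af3c_ag.LinearGroupOrbits

open MvPolynomial Pool.Agent.TH717.GO

theorem result (k : Type) [Field k] [IsAlgClosed k] [CharZero k] (n : ℕ)
    (FF : Set (MvPolynomial (Fin (n + 1)) k)) (hhom : ∀ F ∈ FF, ∃ e, F.IsHomogeneous e) :
    (NoRat FF ↔ OrbitBoundK FF) ∧ (NoRat FF ↔ OrbitsFiniteK FF) := by
  refine ⟨⟨bound_of_noRat FF hhom, fun h => noRat_of_finite FF (finite_of_bound FF h)⟩,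
    ⟨fun h => finite_of_bound FF (bound_of_noRat FF hhom h), noRat_of_finite FF⟩⟩

end Pool.Agent.Results.MP_c7af3c_ag.LinearGroupOrbits
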