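import Mathlib
import Pool.Agent.TH551.SU.Sui
import Pool.Agent.TH551.SU.CS
import Pool.Agent.TH551.SU.WT
import Pool.Agent.TH551.SU.Uni

/-!
# MP_c7af3c_ag: rational points that are short sums of S-units lie on rational curves, uniformly

Let `X` be ANY closed subset of projective `n`-space over `ℚ`, defined by forms of degree at most
`d` whose coefficient vectors have height at most `H`. Let `Γ` be a finitely generated group of
rational numbers (for instance all `S`-units for a finite set `S` of primes), `u 1, …, u r` elements
of `Γ`, `v 1, …, v r` vectors of rational numbers, and let `x = ∑ u j • v j` be a point of `X`.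
If the height of `x` is large,

  `h(x) > C (1 + H + h(v))`, `h(v)` the height of the vector of all coordinates of all `v j`,

then `x` lies on a rational curve over `ℚ` in `X`: for suitable exponents `l j ≤ D` the curve

  `T ↦ ∑ T ^ (l j) • u j • v j`

is contained in `X`, passes through `x` (at `T = 1`) and is not constant. Here `C` depends only on
`n`, `d`, `r` and `Γ` (not on `X`), and the bound `D` for the degree of the curve depends only on `d`
and `r`.

In particular, if `X` contains no rational curve over `ℚ` (for instance if `X` is groupless), then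
every point of `X(ℚ)` of the form `∑ u j • v j` satisfies `h(x) ≤ C (1 + H + h(v))`.

The proof uses the `S`-adic subspace theorem in an ultrapower of `ℚ`: germs of `S`-units are
linearly independent over the field of germs of small height, if no quotient of two of them is in
this field.

* `formHeight F` is the (projective, logarithmic) height of the vector of the coefficients of `F`.
* `Height.logHeight` is the logarithmic height of Mathlib (of a point in projective space).
-/

set_option autoImplicit false

namespace Pool.Agent.Results.MP_c7af3c_ag.SUnitSumsUniform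

open Height Pool.Agent.TH551.SU.Uni

theorem result (d r : ℕ) :
    ∃ D : ℕ, ∀ (n : ℕ) (Γ : Subgroup ℚˣ), Γ.FG → ∃ C : ℝ,
      ∀ (FF : Set (MvPolynomial (Fin (n + 1)) ℚ)) (H : ℝ), 0 ≤ H →
        (∀ F ∈ FF, (∃ e ≤ d, F.IsHomogeneous e) ∧ formHeight F ≤ H) →
        ∀ (u : Fin r → Γ) (v : Fin r → Fin (n + 1) → ℚ),
          (∀ F ∈ FF, MvPolynomial.aeval (fun i => ∑ j, ((u j : ℚˣ) : ℚ) * v j i) F = 0) →
          C * (1 + H + logHeight (fun q : Fin r × Fin (n + 1) => v q.1 q.2)) <
            logHeight (fun i => ∑ j, ((u j : ℚˣ) : ℚ) * v j i) →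
          ∃ l : Fin r → ℕ, (∀ j, l j ≤ D) ∧
            (∀ F ∈ FF, MvPolynomial.aeval (fun i => ∑ j,
              Polynomial.C (((u j : ℚˣ) : ℚ) * v j i) * Polynomial.X ^ (l j)) F = 0) ∧
            ∃ i i', (∑ j, Polynomial.C (((u j : ℚˣ) : ℚ) * v j i) * Polynomial.X ^ (l j)) *
                Polynomial.C (∑ j, ((u j : ℚˣ) : ℚ) * v j i') ≠
              (∑ j, Polynomial.C (((u j : ℚˣ) : ℚ) * v j i') * Polynomial.X ^ (l j)) *
                Polynomial.C (∑ j, ((u j : ℚˣ) : ℚ) * v j i) :=
  uni (Pool.Agent.TH551.SU.CS.cs Pool.Agent.TH551.SU.SUI.sui) Pool.Agent.TH551.SU.WT.wt d r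

end Pool.Agent.Results.MP_c7af3c_ag.SUnitSumsUniform
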