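import Mathlib
import Pool.Agent.TH143.GE.Ell2

/-!
MP_c7af3c_ag, Q1: varieties without curves of genus at most one and sequences of points over
difference fields of transcendence degree one.
-/

set_option autoImplicit false

namespace Pool.Agent.Results.MP_c7af3c_ag.SequencesOverCurves

open MvPolynomial Filter Pool.Agent.TH143 Pool.Agent.TH143.DE Pool.Agent.TH143.HE
  Pool.Agent.TH143.TW Pool.Agent.TH143.GE
open scoped LinearAlgebra.Projectivization

variable {K : Type} [Field K] {N : ℕ}

/-- All curves of genus zero and all curves of genus one in the complex variety `X` lie in `Z`: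
the images of all nonconstant maps from the projective line and from elliptic curves to `X` are
contained in `Z`. Here `X` and `Z` are the projective varieties over `K` given by the forms in `I`
and in `I'`. For `I' = ⊤` the variety `Z` is empty, and this says that `X` contains no curve of
genus at most one. -/
def LowGenusCurvesIn (σ : K →+* ℂ) (I I' : Ideal (MvPolynomial (Fin (N + 1)) K)) : Prop :=
  RatCurvesIn σ I I' ∧ EllCurvesIn σ I I'

/-- All sequences of complex points of `X` outside of `Z`, with homogeneous coordinates in a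
finitely generated field of sequences of transcendence degree at most one, are eventually
constant. -/
def ConstantOverCurves (σ : K →+* ℂ) (I I' : Ideal (MvPolynomial (Fin (N + 1)) K)) : Prop :=
  ∀ (B : Subalgebra ℂ (ℕ → ℂ)) (_ : CoefField B) (_ : FinGen B) (_ : TrLe B 1)
    (x : ℕ → Fin (N + 1) → ℂ) (hx : ∀ m, x m ≠ 0),
    (∀ j, (fun m => x m j) ∈ B) → (∀ m, IsPtP σ I (x m)) → (∀ m, ¬ IsPtP σ I' (x m)) →
    ∃ m0 : ℕ, ∀ m, m0 ≤ m →
      Projectivization.mk ℂ (x m) (hx m) = Projectivization.mk ℂ (x m0) (hx m0)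

/-- All sequences of complex points of `X` outside of `Z`, with homogeneous coordinates which
satisfy linear recurrences over a field of sequences in a tower over a finitely generated field of
sequences of transcendence degree at most one, are eventually periodic. -/
def PeriodicOverTowers (σ : K →+* ℂ) (I I' : Ideal (MvPolynomial (Fin (N + 1)) K)) : Prop :=
  ∀ (B : Subalgebra ℂ (ℕ → ℂ)) (_ : Tow1 B) (x : ℕ → Fin (N + 1) → ℂ) (hx : ∀ m, x m ≠ 0),
    (∀ j, LinRec B fun m => x m j) → (∀ m, IsPtP σ I (x m)) → (∀ m, ¬ IsPtP σ I' (x m)) →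
    ∃ k m0 : ℕ, 0 < k ∧ ∀ m, m0 ≤ m →
      Projectivization.mk ℂ (x (m + k)) (hx (m + k)) = Projectivization.mk ℂ (x m) (hx m)

theorem mk_eq {x y : Fin (N + 1) → ℂ} (hx : x ≠ 0) (hy : y ≠ 0)
    (h : ∀ i j, x i * y j = x j * y i) :
    Projectivization.mk ℂ x hx = Projectivization.mk ℂ y hy := by
  obtain ⟨k, hk⟩ := Function.ne_iff.1 hy
  have hk' : y k ≠ 0 := hk
  have h1 : x = (x k / y k) • y := by
    funext i
    rw [Pi.smul_apply, smul_eq_mul, div_mul_eq_mul_div, eq_div_iff hk']
    exact h i k
  rw [Projectivization.mk_eq_mk_iff']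
  exact ⟨x k / y k, h1.symm⟩

theorem eq_mk {x y : Fin (N + 1) → ℂ} (hx : x ≠ 0) (hy : y ≠ 0)
    (h : Projectivization.mk ℂ x hx = Projectivization.mk ℂ y hy) (i j : Fin (N + 1)) :
    x i * y j = x j * y i := by
  rw [Projectivization.mk_eq_mk_iff'] at h
  obtain ⟨a, rfl⟩ := h
  simp only [Pi.smul_apply, smul_eq_mul]
  ring

/-- an element of the field satisfies a linear recurrence -/
theorem linRec_mem {B : Subalgebra ℂ (ℕ → ℂ)} (hB : CoefField B) {f : ℕ → ℂ} (hf : f ∈ B) :
    LinRec B f := by
  by_cases h0 : ∀ᶠ m in atTop, f m = 0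
  · refine ⟨0, fun _ => 1, fun _ => B.one_mem, ⟨0, le_rfl, fun h => ?_⟩, ?_⟩
    · obtain ⟨m, hm⟩ := h.exists
      exact one_ne_zero hm
    · filter_upwards [h0] with m hm
      rw [zero_add, Finset.sum_range_one, add_zero, hm, mul_zero]
  · refine ⟨1, fun k => if k = 0 then fun m => f (m + 1) else fun m => -f m, fun k => ?_,
      ⟨1, le_rfl, fun h => h0 ?_⟩, Eventually.of_forall fun m => ?_⟩
    · by_cases hk : k = 0
      · simp only [if_pos hk]
        exact hB.shift f hf
      · simp only [if_neg hk]
        exact B.neg_mem hf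
    · filter_upwards [h] with m hm
      simpa using hm
    · simp only [Finset.sum_range_succ, Finset.sum_range_zero]
      simp
      ring

/-- eventually periodic sequences of points over a field are eventually constant -/
theorem const_of_per {B : Subalgebra ℂ (ℕ → ℂ)} (hB : CoefField B) {x : ℕ → Fin (N + 1) → ℂ}
    (hx : ∀ m, x m ≠ 0) (hxB : ∀ j, (fun m => x m j) ∈ B) (h : Per x) :
    ∃ m0 : ℕ, ∀ m, m0 ≤ m → Projectivization.mk ℂ (x m) (hx m) =
      Projectivization.mk ℂ (x m0) (hx m0) := by
  obtain ⟨k, m0, hk, hper⟩ := h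
  obtain ⟨i0, hi0⟩ : ∃ i0, ¬ ∀ᶠ m in atTop, x m i0 = 0 := by
    by_contra hcon
    push Not at hcon
    obtain ⟨m, hm⟩ := (eventually_all.2 hcon).exists
    exact hx m (funext hm)
  have hne := (hB.dich _ (hxB i0)).resolve_left hi0
  obtain ⟨m1, hm1⟩ := eventually_atTop.1 hne
  set M := max m0 m1 with hM
  have hconst : ∀ i, ∀ᶠ m in atTop, x m i * (x m i0)⁻¹ = x M i * (x M i0)⁻¹ := by
    intro i
    have hb : (fun m => x m i * (x m i0)⁻¹ - x M i * (x M i0)⁻¹) ∈ B := by
      have h1 := B.sub_mem (B.mul_mem (hxB i) (hB.inv _ (hxB i0)))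
        (B.algebraMap_mem (x M i * (x M i0)⁻¹))
      exact h1
    have hz : ∀ r : ℕ, x (M + k * r) i * (x (M + k * r) i0)⁻¹ = x M i * (x M i0)⁻¹ := by
      intro r
      have h2 := per_mul (fun m _ => hx m) (m0 := m0) hper r M (le_max_left _ _) i i0
      have h3 := hm1 (M + k * r) (le_trans (le_max_right _ _) (Nat.le_add_right _ _))
      have h4 := hm1 M (le_max_right _ _)
      rw [← div_eq_mul_inv, ← div_eq_mul_inv, div_eq_div_iff h3 h4]
      linear_combination h2
    rcases hB.dich _ hb with h1 | h1
    · filter_upwards [h1] with m hm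
      exact sub_eq_zero.1 hm
    · exfalso
      obtain ⟨m2, hm2⟩ := eventually_atTop.1 h1
      refine hm2 (M + k * m2) ?_ ?_
      · have h2 : 1 * m2 ≤ k * m2 := Nat.mul_le_mul_right m2 hk
        omega
      · rw [hz m2, sub_self]
  obtain ⟨m2, hm2⟩ := eventually_atTop.1 (eventually_all.2 hconst)
  refine ⟨max M m2, fun m hm => mk_eq _ _ fun i j => ?_⟩
  have key : ∀ m, max M m2 ≤ m → ∀ i, x m i = x M i * (x M i0)⁻¹ * x m i0 := by
    intro m hm i
    have h1 := hm2 m (le_trans (le_max_right _ _) hm) i
    have h2 := hm1 m (le_trans (le_trans (le_max_right _ _) (le_max_left _ _)) hm)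
    rw [← h1, inv_mul_cancel_right₀ h2]
  rw [key m hm i, key m hm j, key (max M m2) le_rfl i, key (max M m2) le_rfl j]
  ring

/-- **Curves of genus at most one and sequences of points.** Let `K` be a field (for example a
number field), embedded in `ℂ` by `σ`, let `X` and `Z` be the projective varieties over `K` given by
the forms in `I` and `I'`. The following are equivalent: all curves of genus at most one in `X` lie
in `Z`; all sequences of points of `X` outside of `Z` with homogeneous coordinates in a finitely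
generated field of sequences of transcendence degree at most one are eventually constant; all
sequences of points of `X` outside of `Z` with homogeneous coordinates which satisfy linear
recurrences over a tower over such a field are eventually periodic. -/
theorem result (σ : K →+* ℂ) (I I' : Ideal (MvPolynomial (Fin (N + 1)) K)) :
    (LowGenusCurvesIn σ I I' ↔ ConstantOverCurves σ I I') ∧
      (LowGenusCurvesIn σ I I' ↔ PeriodicOverTowers σ I I') := by
  have h12 : LowGenusCurvesIn σ I I' → PeriodicOverTowers σ I I' := by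
    intro h B hB x hx hrec hX hZ
    obtain ⟨k, m0, hk, hper⟩ := tow1_good h.1 (genusOne_of_ell h.2) hB x (Eventually.of_forall hx) hrec
      (Eventually.of_forall hX) (Eventually.of_forall hZ)
    exact ⟨k, m0, hk, fun m hm => mk_eq _ _ (hper m hm)⟩
  have h23 : PeriodicOverTowers σ I I' → ConstantOverCurves σ I I' := by
    intro h B hB hfg htr x hx hxB hX hZ
    obtain ⟨k, m0, hk, hper⟩ := h B (Tow1.base hB hfg htr) x hx
      (fun j => linRec_mem hB (hxB j)) hX hZ
    exact const_of_per hB hx hxB ⟨k, m0, hk, fun m hm i j => eq_mk _ _ (hper m hm) i j⟩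
  have h31 : ConstantOverCurves σ I I' → LowGenusCurvesIn σ I I' := by
    intro h
    by_contra hcon
    obtain ⟨B, hB, hfg, htr, z, hzB, hz0, hzX, hzZ, hper⟩ := exists_bad' hcon
    obtain ⟨t, ht⟩ := eventually_atTop.1 ((hz0.and hzX).and hzZ)
    obtain ⟨m0, hm0⟩ := h B hB hfg htr (fun m => z (m + t))
      (fun m => (ht (m + t) (by omega)).1.1) (fun j => hB.toCoefRing.shift' (hzB j) t)
      (fun m => (ht (m + t) (by omega)).1.2) (fun m => (ht (m + t) (by omega)).2)
    apply hper
    refine Per.shift (t := t) ⟨1, m0, one_pos, fun m hm i j => ?_⟩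
    exact eq_mk _ _ ((hm0 (m + 1) (by omega)).trans (hm0 m hm).symm) i j
  exact ⟨⟨fun h => h23 (h12 h), h31⟩, ⟨h12, fun h => h31 (h23 h)⟩⟩

end Pool.Agent.Results.MP_c7af3c_ag.SequencesOverCurves
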